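import Pool.Agent.helper17.RX.Spec
import Pool.Agent.helper25.TWO.FIN

set_option autoImplicit false

namespace TP.TW

open DP MeasureTheory Finset

theorem RLB_point (rea : REA_stmt) (reb : REB_stmt) (br1 : BR1_stmt) {n R : ℕ} (hn : 1 ≤ n) (hR : 1 ≤ R)
    (b : ℕ → (Fin n × Fin n → Bool) → Finset (Fin n × Fin n)) (hb : Adb b)
    (hdec : ∀ x y : Fin n × Fin n → Bool, (∀ i < R, ∀ p ∈ b i x, x p = y p) → (Crossing n x ↔ Crossing n y))
    (β : V → Bool) (p : Fin n × Fin n) (hbad : ¬ BAD (col β) (lb b R β) (phi p)) :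
    p ∈ (range R).biUnion fun l => b l fun q => β (phi q) := by
  by_contra hp
  have hpA : p ∉ (range (R - 1)).biUnion fun l => b l fun q => β (phi q) := by
    intro h
    apply hp
    rw [mem_biUnion] at h ⊢
    obtain ⟨l, hl, h⟩ := h
    rw [mem_range] at hl
    exact ⟨l, mem_range.2 (by omega), h⟩
  obtain ⟨-, y, y', hy, hy', hcy, hcy'⟩ :=
    rel_of_not_bad rea reb br1 hn ((range (R - 1)).biUnion fun l => b l fun q => β (phi q)) β p hpA hbad
  have hbat : ∀ j, j < R → b j (fun q => β (phi q)) = b j y := by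
    intro j hj
    apply hb j
    intro i hi q hq
    exact (hy q (mem_biUnion.2 ⟨i, mem_range.2 (by omega), hq⟩)).symm
  refine hcy' ((hdec y y' ?_).mp hcy)
  intro i hi q hq
  rw [← hbat i hi] at hq
  refine (hy' q ?_).symm
  rintro rfl
  exact hp (mem_biUnion.2 ⟨i, mem_range.2 hi, hq⟩)

/-- The site `p` is asked in one of the first `R` rounds. -/
def RLB_in {n : ℕ} (b : ℕ → (Fin n × Fin n → Bool) → Finset (Fin n × Fin n)) (R : ℕ) (p : Fin n × Fin n)
    (x : Fin n × Fin n → Bool) : Prop := p ∈ (range R).biUnion fun l => b l x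

open Classical in
theorem RLB (rea : REA_stmt) (reb : REB_stmt) (br1 : BR1_stmt) (br2 : BR2_stmt) : RLB_stmt := by
  have := TWO_prob
  intro n R hn hR b hb hdec
  -- each site
  have key : ∀ p : Fin n × Fin n, (1 : ℝ) ≤
      (#{x : Fin n × Fin n → Bool | RLB_in b R p x} : ℝ) / 2 ^ (n * n) +
        Pr {β : V → Bool | BAD (col β) (lb b R β) (phi p)} := by
    intro p
    rw [← br2 n (fun x => RLB_in b R p x)]
    have hsub : (Set.univ : Set (V → Bool)) ⊆
        {β : V → Bool | p ∈ (range R).biUnion fun l => b l fun q => β (phi q)} ∪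
        {β : V → Bool | BAD (col β) (lb b R β) (phi p)} := by
      intro β _
      by_cases h : BAD (col β) (lb b R β) (phi p)
      · exact Or.inr h
      · exact Or.inl (RLB_point rea reb br1 (by omega) hR b hb hdec β p h)
    have h1 : (1 : ℝ) = P1.real Set.univ := by simp
    have h2 := measureReal_mono (μ := P1) hsub
    have h3 := measureReal_union_le (μ := P1)
      {β : V → Bool | p ∈ (range R).biUnion fun l => b l fun q => β (phi q)}
      {β : V → Bool | BAD (col β) (lb b R β) (phi p)}
    have h4 : Pr {β : V → Bool | BAD (col β) (lb b R β) (phi p)} =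
      P1.real {β : V → Bool | BAD (col β) (lb b R β) (phi p)} := rfl
    have h5 : Pr {β : V → Bool | p ∈ (range R).biUnion fun l => b l fun q => β (phi q)} =
      P1.real {β : V → Bool | p ∈ (range R).biUnion fun l => b l fun q => β (phi q)} := rfl
    rw [h4]
    have h6 : P1.real {β : V → Bool | p ∈ (range R).biUnion fun l => b l fun q => β (phi q)} +
      P1.real {β : V → Bool | BAD (col β) (lb b R β) (phi p)} ≥ 1 := by
      rw [h1]
      exact le_trans h2 h3
    exact h6
  have hsum : ∑ _p : Fin n × Fin n, (1 : ℝ) ≤ ∑ p : Fin n × Fin n,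
      ((#{x : Fin n × Fin n → Bool | RLB_in b R p x} : ℝ) / 2 ^ (n * n) +
        Pr {β : V → Bool | BAD (col β) (lb b R β) (phi p)}) := sum_le_sum fun p _ => key p
  have h1 : ∑ _p : Fin n × Fin n, (1 : ℝ) = (n : ℝ) ^ 2 := by
    simp [Fintype.card_prod, sq]
  have h2 : ∑ p : Fin n × Fin n,
      (#{x : Fin n × Fin n → Bool | RLB_in b R p x} : ℝ) / 2 ^ (n * n) = cost b R := by
    unfold cost
    rw [← sum_div]
    congr 1
    have h3 : ∀ p : Fin n × Fin n,
        (#{x : Fin n × Fin n → Bool | RLB_in b R p x} : ℝ) =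
        ∑ x : Fin n × Fin n → Bool, if RLB_in b R p x then (1 : ℝ) else 0 := by
      intro p
      rw [card_filter]
      push_cast
      rfl
    rw [sum_congr rfl fun p _ => h3 p, sum_comm]
    refine sum_congr rfl fun x _ => ?_
    rw [← sum_filter, sum_const, nsmul_eq_mul, mul_one]
    congr 2
    ext p
    simp only [mem_filter, mem_univ, true_and, RLB_in]
  have h4 : ∑ p : Fin n × Fin n, Pr {β : V → Bool | BAD (col β) (lb b R β) (phi p)} =
      ∑ v₀ ∈ (Finset.univ : Finset (Fin n × Fin n)).image phi,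
        Pr {β : V → Bool | BAD (col β) (lb b R β) v₀} := by
    rw [Finset.sum_image fun p _ q _ h => phi_inj h]
  rw [sum_add_distrib, h1, h2, h4] at hsum
  exact hsum

end TP.TW
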